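import Mathlib
import Pool.Agent.Helper564.E451.Mid
import Pool.Agent.Helper564.E451.BTRange

set_option autoImplicit false

open Filter

namespace Pool.Agent.Results.MP_9698ab_nt.BeyondEveryPower

/-- `Avoids k n`: no prime `p` with `k < p < 2k` divides `(n-1)(n-2)...(n-k)`. -/
def Avoids (k n : ℕ) : Prop :=
  ∀ p : ℕ, p.Prime → k < p → p < 2 * k → ¬ p ∣ ∏ i ∈ Finset.Icc 1 k, (n - i)

/-- The number `n_k` of the problem: the least `n ≥ 2k` such that `(n-1)(n-2)...(n-k)` is divisible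
by no prime `p` with `k < p < 2k`. -/
noncomputable def nk (k : ℕ) : ℕ := sInf {n : ℕ | 2 * k ≤ n ∧ Avoids k n}

open scoped Classical in
theorem result : ∀ d : ℝ, ∀ᶠ k : ℕ in atTop, (k : ℝ) ^ d < (nk k : ℝ) := by
  intro d
  obtain ⟨η, hη0, hη1, hbt⟩ := Pool.Agent.Helper564.E451.bt_range
  have hbt' := hbt η hη0 le_rfl
  obtain ⟨D, hD⟩ := exists_nat_ge (max d 2)
  have hD2 : 2 ≤ D := by
    have : (2 : ℝ) ≤ D := le_trans (le_max_right _ _) hD
    exact_mod_cast this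
  have hDd : d ≤ D := le_trans (le_max_left _ _) hD
  filter_upwards [hbt', Pool.Agent.Helper564.E451.small_range (4 / η),
    Pool.Agent.Helper564.E451.mid_range D hD2,
    Pool.Agent.Helper564.E451.pnt_window η hη0 hη1, eventually_ge_atTop 2] with k h1 h2 h3 h4 hk
  by_contra hcon
  push Not at hcon
  have hne : {n : ℕ | 2 * k ≤ n ∧ Avoids k n}.Nonempty :=
    Pool.Agent.Helper564.E451.exists_good k (by omega)
  have hmem : 2 * k ≤ nk k ∧ Avoids k (nk k) := Nat.sInf_mem hne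
  obtain ⟨h2k, hav⟩ := hmem
  have hgood : Pool.Agent.Helper564.E451.Good k (nk k) := hav
  have hk1 : (1 : ℝ) ≤ k := by exact_mod_cast (by omega : 1 ≤ k)
  have hle : nk k ≤ k ^ D := by
    have : (nk k : ℝ) ≤ (k : ℝ) ^ (D : ℝ) :=
      hcon.trans (Real.rpow_le_rpow_of_exponent_le hk1 hDd)
    rw [Real.rpow_natCast] at this
    exact_mod_cast this
  rcases le_or_gt ((k : ℝ) ^ ((3 : ℝ) / 2)) (nk k) with hA | hA
  · exact h3 (nk k) hA hle hgood
  rcases le_or_gt ((nk k : ℝ)) (4 / η * k) with hB | hB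
  · exact h2 (nk k) h2k hB hgood
  have h5 := h1 (nk k) hB.le hA.le
  have h6 : (Finset.Ioc k ⌊(1 + η) * k⌋₊).filter Nat.Prime ⊆
      (Finset.Ioc k ⌊(1 + η) * k⌋₊).filter
        (fun p : ℕ => p.Prime ∧ ∃ z : ℤ, |((nk k : ℕ) : ℝ) / p - z| ≤ η) := by
    intro p hp
    rw [Finset.mem_filter, Finset.mem_Ioc] at hp ⊢
    obtain ⟨⟨hp1, hp2⟩, hp3⟩ := hp
    refine ⟨⟨hp1, hp2⟩, hp3, ?_⟩
    have hp4 : (p : ℝ) ≤ (1 + η) * k := by
      have h0 : (0 : ℝ) ≤ (1 + η) * k := by positivity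
      exact (Nat.le_floor_iff h0).1 hp2
    have hp5 : p ≤ 2 * k := by
      have : (p : ℝ) ≤ 2 * k := by nlinarith
      exact_mod_cast this
    have hp6 : p < 2 * k := by
      rcases lt_or_eq_of_le hp5 with h | h
      · exact h
      · exfalso
        rw [h] at hp3
        have := (Nat.prime_mul_iff.1 hp3)
        rcases this with ⟨_, h'⟩ | ⟨_, h'⟩
        · omega
        · omega
    exact hgood.near h2k (by omega) hp3 hp1 hp6 η hp4
  have h7 := Finset.card_le_card h6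
  have h8 : (((Finset.Ioc k ⌊(1 + η) * k⌋₊).filter Nat.Prime).card : ℝ) ≤
      (((Finset.Ioc k ⌊(1 + η) * k⌋₊).filter
        (fun p : ℕ => p.Prime ∧ ∃ z : ℤ, |((nk k : ℕ) : ℝ) / p - z| ≤ η)).card : ℝ) := by
    exact_mod_cast h7
  have h9 := h4.trans h8
  exact absurd h5 (not_lt.2 h9)

end Pool.Agent.Results.MP_9698ab_nt.BeyondEveryPower
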